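import Pool.Agent.Run7.h162.SD.Dim
import Pool.Agent.Run7.h162.CH.Gen

/-!
# Growth rates after an extension of the ground field, for all finite schemes
-/

set_option autoImplicit false
set_option linter.unusedSectionVars false

namespace Pool.Agent.Run7.h162.SD

open scoped TensorProduct Topology
open Pool.Agent.H826R3.SM Pool.Agent.TH671.DU Pool.Agent.N86.SQ

theorem mdeg_pow_one {k : Type} [Field k] [IsAlgClosed k] (A : Type) [CommRing A] [Algebra k A]
    [Module.Finite k A] : mdeg k (Pow k A 1) = mdeg k A := by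
  have h1 := cl_pow (k := k) ⟨A⟩ 1
  rw [pow_one] at h1
  have h2 := congrArg (fun a => muS a (FSch.point k)) h1
  beta_reduce at h2
  rw [muS_cl, muS_cl, mu_point', mu_point'] at h2
  exact h2.symm

theorem rate_le_mdeg {k : Type} [Field k] [IsAlgClosed k] (A : Type) [CommRing A] [Algebra k A]
    [Module.Finite k A] [Nontrivial A] : rate k A ≤ mdeg k A := by
  have h1 := rate_pow_le (k := k) A 1
  rwa [pow_one, mdeg_pow_one] at h1

theorem mdeg_baseChange_prod (k K A B : Type) [Field k] [Field K] [IsAlgClosed K] [Algebra k K]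
    [CommRing A] [Algebra k A] [Module.Finite k A] [CommRing B] [Algebra k B]
    [Module.Finite k B] :
    mdeg K (K ⊗[k] (A × B)) = mdeg K (K ⊗[k] A) + mdeg K (K ⊗[k] B) := by
  rw [mdeg_congr (Algebra.TensorProduct.prodRight k K K A B), mdeg_prod' K]

theorem mdeg_baseChange_congr (k K : Type) {A B : Type} [Field k] [Field K] [Algebra k K]
    [CommRing A] [Algebra k A] [CommRing B] [Algebra k B] (e : A ≃ₐ[k] B) :
    mdeg K (K ⊗[k] A) = mdeg K (K ⊗[k] B) :=
  mdeg_congr (Algebra.TensorProduct.congr (AlgEquiv.refl (R := K) (A₁ := K)) e)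

theorem mdeg_baseChange_pow (k K A : Type) [Field k] [IsAlgClosed k] [Field K] [IsAlgClosed K]
    [Algebra k K] [CommRing A] [Algebra k A] [Module.Finite k A] (n : ℕ) :
    mdeg K (K ⊗[k] Pow k A n) = mdeg K (Pow K (K ⊗[k] A) n) := by
  obtain ⟨f, hf⟩ := pow_baseChange (k := k) (K := K) (B := A) n
  have hd : Module.finrank K (K ⊗[k] Pow k A n) = Module.finrank K (Pow K (K ⊗[k] A) n) := by
    rw [Module.finrank_baseChange, finrank_Pow', finrank_Pow', Module.finrank_baseChange]
  have hinj : Function.Injective f :=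
    (LinearMap.injective_iff_surjective_of_finrank_eq_finrank hd (f := f.toLinearMap)).2 hf
  exact mdeg_congr (AlgEquiv.ofBijective f ⟨hinj, hf⟩)

/-- dimension functions are bounded by the smoothable degrees over extension fields -/
theorem dim_le_mdeg_baseChange (K : Type) {k : Type} [Field k] [IsAlgClosed k] [Field K]
    [IsAlgClosed K] [Algebra k K] {F : FSch k → ℝ} (hF : IsDimFun F) (n : ℕ) :
    ∀ Z : FSch k, Module.finrank k Z.A = n → F Z ≤ mdeg K (K ⊗[k] Z.A) := by
  induction n using Nat.strong_induction_on with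
  | _ n ih =>
    intro Z hn
    rcases subsingleton_or_nontrivial Z.A with hs | hnt
    · let f : PUnit →ₐ[k] Z.A :=
        { toFun := fun _ => 0
          map_one' := Subsingleton.elim _ _
          map_mul' := fun _ _ => Subsingleton.elim _ _
          map_zero' := Subsingleton.elim _ _
          map_add' := fun _ _ => Subsingleton.elim _ _
          commutes' := fun _ => Subsingleton.elim _ _ }
      have h1 := hF.mono Z (FSch.empty k) f fun y => ⟨PUnit.unit, Subsingleton.elim _ _⟩
      rw [hF.empty] at h1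
      exact h1.trans (Nat.cast_nonneg _)
    by_cases hloc : IsLocalRing Z.A
    · have h1 := hF.le_rate Z
      have h2 := CH.rate_baseChange k K Z.A
      have hnt' := nontrivial_baseChange k K Z.A
      have h3 := rate_le_mdeg (k := K) (K ⊗[k] Z.A)
      linarith
    have hart : IsArtinianRing Z.A := IsArtinianRing.of_finite k Z.A
    obtain ⟨e, he, hu, hu'⟩ := exists_idem hloc
    let f : Z.A →ₐ[k] (Z.A ⧸ Ideal.span {e}) × (Z.A ⧸ Ideal.span {1 - e}) :=
      (Ideal.Quotient.mkₐ k (Ideal.span {e})).prod (Ideal.Quotient.mkₐ k (Ideal.span {1 - e}))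
    have hf : Function.Bijective f := crt_bijective e he
    let E := AlgEquiv.ofBijective f hf
    have hnt1 : Nontrivial (Z.A ⧸ Ideal.span {e}) := by
      rw [Ideal.Quotient.nontrivial_iff, Ne, Ideal.span_singleton_eq_top]
      exact hu
    have hnt2 : Nontrivial (Z.A ⧸ Ideal.span {1 - e}) := by
      rw [Ideal.Quotient.nontrivial_iff, Ne, Ideal.span_singleton_eq_top]
      exact hu'
    have hsum : Module.finrank k Z.A = Module.finrank k (Z.A ⧸ Ideal.span {e}) +
        Module.finrank k (Z.A ⧸ Ideal.span {1 - e}) := by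
      rw [E.toLinearEquiv.finrank_eq, Module.finrank_prod]
    have hp1 : 0 < Module.finrank k (Z.A ⧸ Ideal.span {e}) := Module.finrank_pos
    have hp2 : 0 < Module.finrank k (Z.A ⧸ Ideal.span {1 - e}) := Module.finrank_pos
    have g1 := ih (Module.finrank k (Z.A ⧸ Ideal.span {e})) (by omega)
      ⟨Z.A ⧸ Ideal.span {e}⟩ rfl
    have g2 := ih (Module.finrank k (Z.A ⧸ Ideal.span {1 - e})) (by omega)
      ⟨Z.A ⧸ Ideal.span {1 - e}⟩ rfl
    have h1 : F Z = F ⟨Z.A ⧸ Ideal.span {e}⟩ + F ⟨Z.A ⧸ Ideal.span {1 - e}⟩ := by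
      rw [← hF.union]
      exact hF.congr (X := Z)
        (Y := (⟨Z.A ⧸ Ideal.span {e}⟩ : FSch k).union ⟨Z.A ⧸ Ideal.span {1 - e}⟩) E
    rw [h1, mdeg_baseChange_congr k K E, mdeg_baseChange_prod]
    push_cast
    exact add_le_add g1 g2

/-- **The growth rate after an extension of the ground field.** -/
theorem rate_baseChange_all (k K A : Type) [Field k] [IsAlgClosed k] [Field K] [IsAlgClosed K]
    [Algebra k K] [CommRing A] [Algebra k A] [Module.Finite k A] [Nontrivial A] :
    rate K (K ⊗[k] A) = rate k A := by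
  have hnt := nontrivial_baseChange k K A
  refine le_antisymm (rate_baseChange_le k K A) ?_
  obtain ⟨F, hF, hFA⟩ := exists_dim_eq_rate (k := k) ⟨A⟩
  change F ⟨A⟩ = rate k A at hFA
  rw [← hFA, rate_eq]
  refine le_irate _ _ (hF.1.nonneg _) fun n => ?_
  rw [← mdeg_baseChange_pow, ← hF.1.pow]
  exact dim_le_mdeg_baseChange K hF.1 _ ⟨Pow k A (n + 1)⟩ rfl

end Pool.Agent.Run7.h162.SD
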