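import Pool.Agent.Run7.h162.SD.Rel
import Pool.Agent.Run7.h162.SD.Bc

/-!
# The growth rate is additive if and only if it is multiplicative
-/

set_option autoImplicit false
set_option linter.unusedSectionVars false

namespace Pool.Agent.Run7.h162.SD

open scoped TensorProduct Topology
open Pool.Agent.H826R3.SM Pool.Agent.TH671.DU Pool.Agent.N86.SQ

variable {k : Type} [Field k] [IsAlgClosed k]

theorem rate_of_subsingleton (A : Type) [CommRing A] [Algebra k A] [Module.Finite k A]
    [Subsingleton A] : rate k A = 0 := by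
  rw [rate_eq]
  refine le_antisymm ?_ (irate_nonneg _)
  refine (irate_le (fun n => mdeg k (Pow k A n)) 0).trans ?_
  have h1 : mdeg k (Pow k A (0 + 1)) = 0 := by
    rw [Nat.zero_add, mdeg_pow_one]
    exact mdeg_of_subsingleton A
  beta_reduce
  rw [h1]
  simp

theorem empty_le (X : FSch k) : ∃ f : X.A →ₐ[k] PUnit, Function.Surjective f :=
  ⟨{ toFun := fun _ => PUnit.unit
     map_one' := rfl
     map_mul' := fun _ _ => rfl
     map_zero' := rfl
     map_add' := fun _ _ => rfl
     commutes' := fun _ => rfl }, fun _ => ⟨0, rfl⟩⟩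

theorem dim_of_subsingleton {F : FSch k → ℝ} (h : IsDimFun F) (X : FSch k) [Subsingleton X.A] :
    F X = 0 := by
  refine le_antisymm ?_ (h.nonneg X)
  let f : PUnit →ₐ[k] X.A :=
    { toFun := fun _ => 0
      map_one' := Subsingleton.elim _ _
      map_mul' := fun _ _ => Subsingleton.elim _ _
      map_zero' := Subsingleton.elim _ _
      map_add' := fun _ _ => Subsingleton.elim _ _
      commutes' := fun _ => Subsingleton.elim _ _ }
  have h1 := h.mono X (FSch.empty k) f fun y => ⟨PUnit.unit, Subsingleton.elim _ _⟩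
  rwa [h.empty] at h1

theorem dim_le_rate {F : FSch k → ℝ} (h : IsDimFun F) (X : FSch k) : F X ≤ rate k X.A := by
  rcases subsingleton_or_nontrivial X.A with hs | hs
  · rw [dim_of_subsingleton h X, rate_of_subsingleton]
  · exact h.le_rate X

theorem exists_dim_eq_rate' (X : FSch k) : ∃ F : FSch k → ℝ, IsDimFun F ∧ F X = rate k X.A := by
  rcases subsingleton_or_nontrivial X.A with hs | hs
  · exact ⟨_, isDimFun_finrank, by
      rw [dim_of_subsingleton isDimFun_finrank X, rate_of_subsingleton]⟩
  · obtain ⟨F, hF, h⟩ := exists_dim_eq_rate X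
    exact ⟨F, hF.1, h⟩

theorem add_iff (X Y : FSch k) :
    rate k (X.union Y).A = rate k X.A + rate k Y.A ↔
      ∃ F : FSch k → ℝ, IsDimFun F ∧ F X = rate k X.A ∧ F Y = rate k Y.A := by
  constructor
  · intro h
    obtain ⟨F, hF, h1⟩ := exists_dim_eq_rate' (X.union Y)
    rw [hF.union, h] at h1
    have h2 := dim_le_rate hF X
    have h3 := dim_le_rate hF Y
    exact ⟨F, hF, by linarith, by linarith⟩
  · rintro ⟨F, hF, h1, h2⟩
    refine le_antisymm ?_ ?_
    · obtain ⟨G, hG, h3⟩ := exists_dim_eq_rate' (X.union Y)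
      rw [← h3, hG.union]
      exact add_le_add (dim_le_rate hG X) (dim_le_rate hG Y)
    · rw [← h1, ← h2, ← hF.union]
      exact dim_le_rate hF _

theorem mul_iff (X Y : FSch k) [Nontrivial X.A] [Nontrivial Y.A] :
    rate k (X.prod Y).A = rate k X.A * rate k Y.A ↔
      ∃ F : FSch k → ℝ, IsDimFun F ∧ F X = rate k X.A ∧ F Y = rate k Y.A := by
  constructor
  · intro h
    obtain ⟨F, hF, h1⟩ := exists_dim_eq_rate' (X.prod Y)
    rw [hF.prod, h] at h1
    have h2 := dim_le_rate hF X
    have h3 := dim_le_rate hF Y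
    have h4 := one_le_dim hF X
    have h5 := one_le_dim hF Y
    refine ⟨F, hF, ?_, ?_⟩ <;> nlinarith
  · rintro ⟨F, hF, h1, h2⟩
    refine le_antisymm ?_ ?_
    · obtain ⟨G, hG, h3⟩ := exists_dim_eq_rate' (X.prod Y)
      have h4 := one_le_dim hG Y
      have h5 := one_le_rate (k := k) X.A
      rw [← h3, hG.prod]
      exact mul_le_mul (dim_le_rate hG X) (dim_le_rate hG Y) (by linarith) (by linarith)
    · rw [← h1, ← h2, ← hF.prod]
      exact dim_le_rate hF _

/-- **The growth rate is additive if and only if it is multiplicative, if and only if it is a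
dimension function.** -/
theorem tfae_largest : List.TFAE [
    ∀ X Y : FSch k, Nontrivial X.A → Nontrivial Y.A →
      rate k (X.union Y).A = rate k X.A + rate k Y.A,
    ∀ X Y : FSch k, Nontrivial X.A → Nontrivial Y.A →
      rate k (X.prod Y).A = rate k X.A * rate k Y.A,
    IsDimFun fun X : FSch k => rate k X.A,
    ∃ F : FSch k → ℝ, IsDimFun F ∧ ∀ G : FSch k → ℝ, IsDimFun G → ∀ X, G X ≤ F X] := by
  tfae_have 1 ↔ 2 := by
    constructor
    · intro h X Y hX hY
      exact (mul_iff X Y).2 ((add_iff X Y).1 (h X Y hX hY))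
    · intro h X Y hX hY
      exact (add_iff X Y).2 ((mul_iff X Y).1 (h X Y hX hY))
  tfae_have 1 → 3 := by
    intro h
    have h2 : ∀ X Y : FSch k, rate k (X.union Y).A = rate k X.A + rate k Y.A := by
      intro X Y
      rcases subsingleton_or_nontrivial X.A with hX | hX
      · refine (add_iff X Y).2 ?_
        obtain ⟨F, hF, h1⟩ := exists_dim_eq_rate' Y
        exact ⟨F, hF, by rw [dim_of_subsingleton hF X, rate_of_subsingleton], h1⟩
      · rcases subsingleton_or_nontrivial Y.A with hY | hY
        · refine (add_iff X Y).2 ?_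
          obtain ⟨F, hF, h1⟩ := exists_dim_eq_rate' X
          exact ⟨F, hF, h1, by rw [dim_of_subsingleton hF Y, rate_of_subsingleton]⟩
        · exact h X Y hX hY
    have h3 : ∀ X Y : FSch k, rate k (X.prod Y).A = rate k X.A * rate k Y.A := by
      intro X Y
      rcases subsingleton_or_nontrivial X.A with hX | hX
      · have : Subsingleton (X.prod Y).A := by
          change Subsingleton (X.A ⊗[k] Y.A)
          infer_instance
        rw [rate_of_subsingleton (X.prod Y).A, rate_of_subsingleton X.A, zero_mul]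
      · rcases subsingleton_or_nontrivial Y.A with hY | hY
        · have : Subsingleton (X.prod Y).A := by
            change Subsingleton (X.A ⊗[k] Y.A)
            infer_instance
          rw [rate_of_subsingleton (X.prod Y).A, rate_of_subsingleton Y.A, mul_zero]
        · exact (mul_iff X Y).2 ((add_iff X Y).1 (h X Y hX hY))
    refine ⟨?_, h2, h3, ?_, ?_⟩
    · obtain ⟨F, hF, h1⟩ := exists_dim_eq_rate' (FSch.point k)
      rw [hF.point] at h1
      exact h1.symm
    · intro X Y f hf
      obtain ⟨F, hF, h1⟩ := exists_dim_eq_rate' X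
      beta_reduce
      rw [← h1]
      exact (hF.mono X Y f hf).trans (dim_le_rate hF Y)
    · intro X hX
      obtain ⟨F, hF, h1⟩ := exists_dim_eq_rate' X
      beta_reduce
      rw [← h1]
      exact hF.smooth X hX
  tfae_have 3 → 4 := fun h => ⟨_, h, fun G hG X => dim_le_rate hG X⟩
  tfae_have 4 → 1 := by
    rintro ⟨F, hF, hmax⟩ X Y hX hY
    refine (add_iff X Y).2 ⟨F, hF, ?_, ?_⟩
    · obtain ⟨G, hG, h1⟩ := exists_dim_eq_rate' X
      exact le_antisymm (dim_le_rate hF X) (h1 ▸ hmax G hG X)
    · obtain ⟨G, hG, h1⟩ := exists_dim_eq_rate' Y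
      exact le_antisymm (dim_le_rate hF Y) (h1 ▸ hmax G hG Y)
  tfae_finish

theorem qOne_iff_dim (X : FSch k) [Nontrivial X.A] :
    QOne k X.A ↔ ∀ F : FSch k → ℝ, IsDimFun F → F X ≤ Module.finrank k X.A := by
  rw [qOne_iff_rate]
  constructor
  · intro h F hF
    rw [← h]
    exact hF.le_rate X
  · intro h
    obtain ⟨F, hF, h1⟩ := exists_dim_eq_rate' X
    exact le_antisymm (h1 ▸ h F hF) (finrank_le_rate X.A)

theorem qOneAll_iff_dim :
    (∀ (A : Type) [CommRing A] [Algebra k A] [Module.Finite k A] [Nontrivial A], QOne k A) ↔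
      ∀ F : FSch k → ℝ, IsDimFun F → ∀ X : FSch k, F X ≤ Module.finrank k X.A := by
  constructor
  · intro h F hF X
    rcases subsingleton_or_nontrivial X.A with hX | hX
    · rw [dim_of_subsingleton hF X]
      exact Nat.cast_nonneg _
    · exact (qOne_iff_dim X).1 (h X.A) F hF
  · intro h A _ _ _ _
    exact (qOne_iff_dim ⟨A⟩).2 fun F hF => h F hF ⟨A⟩

end Pool.Agent.Run7.h162.SD
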