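import Pool.Agent.Run7.h162.SD.Semi

/-!
# Dimension functions on finite schemes
-/

set_option autoImplicit false
set_option linter.unusedSectionVars false

namespace Pool.Agent.Run7.h162.SD

open scoped TensorProduct Topology
open Pool.Agent.H826R3.SM Pool.Agent.TH671.DU Pool.Agent.N86.SQ
open Pool.Agent.K7.H26.SHI (Base Good)

variable {k : Type} [Field k]

/-- A dimension function on the finite schemes over `k`: it is additive for disjoint unions,
multiplicative for products, monotone for closed subschemes, its value at a point is `1`, and its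
values at smoothable schemes are at most their degrees. -/
structure IsDimFun (F : FSch k → ℝ) : Prop where
  point : F (FSch.point k) = 1
  union : ∀ X Y : FSch k, F (X.union Y) = F X + F Y
  prod : ∀ X Y : FSch k, F (X.prod Y) = F X * F Y
  mono : ∀ (X Y : FSch k) (f : Y.A →ₐ[k] X.A), Function.Surjective f → F X ≤ F Y
  smooth : ∀ X : FSch k, Smoothable k X.A → F X ≤ Module.finrank k X.A

variable [IsAlgClosed k]

theorem IsDimFun.congr {F : FSch k → ℝ} (h : IsDimFun F) {X Y : FSch k} (e : X.A ≃ₐ[k] Y.A) :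
    F X = F Y :=
  le_antisymm (h.mono X Y e.symm.toAlgHom e.symm.surjective) (h.mono Y X e.toAlgHom e.surjective)

theorem IsDimFun.empty {F : FSch k → ℝ} (h : IsDimFun F) : F (FSch.empty k) = 0 := by
  have e : ((FSch.empty k).union (FSch.empty k)).A ≃ₐ[k] (FSch.empty k).A :=
    AlgEquiv.ofBijective (AlgHom.fst k PUnit PUnit)
      ⟨fun x y _ => (Prod.ext rfl rfl : (x : PUnit × PUnit) = y), fun x => ⟨(x, x), rfl⟩⟩
  have h1 := h.congr e
  rw [h.union] at h1
  linarith

theorem IsDimFun.nonneg {F : FSch k → ℝ} (h : IsDimFun F) (X : FSch k) : 0 ≤ F X := by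
  rw [← h.empty]
  let f : X.A →ₐ[k] PUnit :=
    { toFun := fun _ => PUnit.unit
      map_one' := rfl
      map_mul' := fun _ _ => rfl
      map_zero' := rfl
      map_add' := fun _ _ => rfl
      commutes' := fun _ => rfl }
  exact h.mono (FSch.empty k) X f fun _ => ⟨0, rfl⟩

theorem IsDimFun.le_mdeg {F : FSch k → ℝ} (h : IsDimFun F) (X : FSch k) :
    F X ≤ mdeg k X.A := by
  obtain ⟨D, hD⟩ := exists_fam (k := k) X.A
  obtain ⟨D', hD', B, _, _, hB1, hB2, hB3, f, hf⟩ := (mdeg_spec hD).inSmoothable
  have h1 := h.mono X ⟨B⟩ f hf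
  have h2 := h.smooth ⟨B⟩ hB2
  change F ⟨B⟩ ≤ (Module.finrank k B : ℝ) at h2
  rw [hB3] at h2
  have h3 : (D' : ℝ) ≤ mdeg k X.A := by exact_mod_cast hD'
  exact h1.trans (h2.trans h3)

theorem IsDimFun.pow {F : FSch k → ℝ} (h : IsDimFun F) (X : FSch k) (n : ℕ) :
    F ⟨Pow k X.A n⟩ = F X ^ n := by
  induction n with
  | zero =>
    rw [pow_zero, ← h.point]
    exact h.congr (X := ⟨Pow k X.A 0⟩) (Y := FSch.point k) (powZero k X.A)
  | succ n ih =>
    rw [pow_succ, ← ih, mul_comm, ← h.prod]
    exact h.congr (X := ⟨Pow k X.A (n + 1)⟩) (Y := X.prod ⟨Pow k X.A n⟩) (powSucc k X.A n)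

theorem IsDimFun.le_rate {F : FSch k → ℝ} (h : IsDimFun F) (X : FSch k) [Nontrivial X.A] :
    F X ≤ rate k X.A := by
  rw [rate_eq]
  refine le_irate _ _ (h.nonneg X) fun n => ?_
  rw [← h.pow]
  exact h.le_mdeg ⟨Pow k X.A (n + 1)⟩

/-- the degree is a dimension function -/
theorem isDimFun_finrank : IsDimFun fun X : FSch k => (Module.finrank k X.A : ℝ) where
  point := by
    change ((Module.finrank k k : ℕ) : ℝ) = 1
    rw [Module.finrank_self, Nat.cast_one]
  union X Y := by
    change ((Module.finrank k (X.A × Y.A) : ℕ) : ℝ) = _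
    rw [Module.finrank_prod, Nat.cast_add]
  prod X Y := by
    change ((Module.finrank k (X.A ⊗[k] Y.A) : ℕ) : ℝ) = _
    rw [Module.finrank_tensorProduct, Nat.cast_mul]
  mono X Y f hf := by
    exact_mod_cast LinearMap.finrank_le_finrank_of_surjective (f := f.toLinearMap) hf
  smooth X _ := le_rfl

/-- dimension functions which are monotone for the dominance preorder -/
def StrongDim (F : FSch k → ℝ) : Prop := IsDimFun F ∧ ∀ X Y : FSch k, Dom X Y → F X ≤ F Y

/-- the dimension function of a total extension -/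
theorem strongDim_val {R : Set (SC k × SC k)} (h : Good (leS (k := k)) R)
    (ht : ∀ a b, (a, b) ∈ R ∨ (b, a) ∈ R) :
    StrongDim fun X : FSch k => Pool.Agent.K7.H26.SHI.val R (cl X) := by
  refine ⟨⟨?_, ?_, ?_, ?_, ?_⟩, ?_⟩
  · exact Pool.Agent.K7.H26.SHI.val_one base h
  · intro X Y
    exact Pool.Agent.K7.H26.SHI.val_add base h ht (cl X) (cl Y)
  · intro X Y
    exact Pool.Agent.K7.H26.SHI.val_mul base h ht (cl X) (cl Y)
  · intro X Y f hf
    exact Pool.Agent.K7.H26.SHI.val_mono base h ht
      (h.ext _ _ (leS_of_subquotient (IsSubquotient.of_surjective f hf)))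
  · intro X hX
    have h1 : leS (cl X) ((Module.finrank k X.A : ℕ) : SC k) :=
      leS_natCast_of_mdeg_le X (TH671.DU.mdeg_le (Smoothable.fam hX))
    have h2 := Pool.Agent.K7.H26.SHI.val_le R (cl X) (Module.finrank k X.A) 1 one_pos (by
      rw [Nat.cast_one, one_mul]
      exact h.ext _ _ h1)
    rw [Nat.cast_one, div_one] at h2
    exact h2
  · intro X Y hXY
    exact Pool.Agent.K7.H26.SHI.val_mono base h ht (h.ext _ _ hXY)

/-- dimension functions whose value is almost the growth rate -/
theorem exists_strongDim_ge (X : FSch k) [Nontrivial X.A] {m q : ℕ} (hm : 0 < m) (hq : 0 < q)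
    (hmq : (m : ℝ) < q * rate k X.A) :
    ∃ F : FSch k → ℝ, StrongDim F ∧ (m / q : ℝ) ≤ F X := by
  have hm0 : (m : SC k) ≠ 0 := by
    intro h0
    have h1 : leS (m : SC k) ((0 : ℕ) : SC k) := by
      rw [h0, Nat.cast_zero]
      exact base.refl 0
    have := base.nat m 0 h1
    omega
  obtain ⟨R, hR, hxy, ht⟩ := Pool.Agent.K7.H26.SHI.exists_total (base (k := k)) (m : SC k)
    ((q : SC k) * cl X) hm0 (q * rate k X.A) m (by exact_mod_cast hm) hmq (by
      intro j L N hle
      have h1 := hle (FSch.point k)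
      have h2 : mdeg k (FSch.point k).A = 1 := mdeg_self (k := k)
      have e1 : (j : SC k) * ((q : SC k) * cl X) ^ N =
          ((j * q ^ N : ℕ) : SC k) * cl ⟨Pow k X.A N⟩ := by
        rw [← cl_pow]
        push_cast
        ring
      have e2 : (L : SC k) * (m : SC k) ^ N = ((L * m ^ N : ℕ) : SC k) := by push_cast; rfl
      rw [e1, e2, muS_natCast_mul, muS_natCast, h2, muS_cl, mu_point', Nat.mul_one] at h1
      have h3 : ((j * q ^ N : ℕ) : ℝ) * (mdeg k (Pow k X.A N) : ℝ) ≤ ((L * m ^ N : ℕ) : ℝ) := by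
        exact_mod_cast h1
      push_cast at h3
      have h4 := rate_pow_le (k := k) X.A N
      rw [mul_pow]
      calc (j : ℝ) * ((q : ℝ) ^ N * rate k X.A ^ N) = (j : ℝ) * (q : ℝ) ^ N * rate k X.A ^ N := by
            ring
        _ ≤ (j : ℝ) * (q : ℝ) ^ N * (mdeg k (Pow k X.A N) : ℝ) :=
            mul_le_mul_of_nonneg_left h4 (by positivity)
        _ ≤ L * (m : ℝ) ^ N := h3)
  exact ⟨_, strongDim_val hR ht, Pool.Agent.K7.H26.SHI.le_val base hR (cl X) m q hq hxy⟩

/-! ### Compactness -/

theorem isCompact_dim : IsCompact {F : FSch k → ℝ | IsDimFun F} := by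
  have hK : IsCompact (Set.pi Set.univ fun X : FSch k => Set.Icc (0 : ℝ) (mdeg k X.A)) :=
    isCompact_univ_pi fun X => isCompact_Icc
  refine hK.of_isClosed_subset ?_ fun F hF X _ => ⟨IsDimFun.nonneg hF X, IsDimFun.le_mdeg hF X⟩
  rw [← closure_subset_iff_isClosed]
  intro F hF
  refine ⟨?_, fun X Y => ?_, fun X Y => ?_, fun X Y f hf => ?_, fun X hX => ?_⟩
  · exact closure_minimal (t := {G : FSch k → ℝ | G (FSch.point k) = 1})
      (fun G hG => IsDimFun.point hG) (isClosed_eq (continuous_apply _) continuous_const) hF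
  · exact closure_minimal (t := {G : FSch k → ℝ | G (X.union Y) = G X + G Y})
      (fun G hG => IsDimFun.union hG X Y)
      (isClosed_eq (continuous_apply _) ((continuous_apply _).add (continuous_apply _))) hF
  · exact closure_minimal (t := {G : FSch k → ℝ | G (X.prod Y) = G X * G Y})
      (fun G hG => IsDimFun.prod hG X Y)
      (isClosed_eq (continuous_apply _) ((continuous_apply _).mul (continuous_apply _))) hF
  · exact closure_minimal (t := {G : FSch k → ℝ | G X ≤ G Y})
      (fun G hG => IsDimFun.mono hG X Y f hf)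
      (isClosed_le (continuous_apply _) (continuous_apply _)) hF
  · exact closure_minimal (t := {G : FSch k → ℝ | G X ≤ Module.finrank k X.A})
      (fun G hG => IsDimFun.smooth hG X hX)
      (isClosed_le (continuous_apply _) continuous_const) hF

theorem isCompact_strongDim : IsCompact {F : FSch k → ℝ | StrongDim F} := by
  refine (isCompact_dim (k := k)).of_isClosed_subset ?_ fun F hF => hF.1
  rw [← closure_subset_iff_isClosed]
  intro F hF
  refine ⟨?_, fun X Y hXY => ?_⟩
  · exact closure_minimal (fun G (hG : StrongDim G) => hG.1) (isCompact_dim (k := k)).isClosed hF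
  · exact closure_minimal (t := {G : FSch k → ℝ | G X ≤ G Y}) (fun G hG => hG.2 X Y hXY)
      (isClosed_le (continuous_apply _) (continuous_apply _)) hF

/-- **Strassen duality for finite schemes.** -/
theorem exists_dim_eq_rate (X : FSch k) [Nontrivial X.A] :
    ∃ F : FSch k → ℝ, StrongDim F ∧ F X = rate k X.A := by
  have hr := one_le_rate (k := k) X.A
  have hne : {F : FSch k → ℝ | StrongDim F}.Nonempty := by
    obtain ⟨F, hF, -⟩ := exists_strongDim_ge X (m := 1) (q := 2) one_pos two_pos (by
      push_cast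
      linarith)
    exact ⟨F, hF⟩
  obtain ⟨F, hF, hmax⟩ := (isCompact_strongDim (k := k)).exists_isMaxOn hne
    (f := fun G : FSch k → ℝ => G X) (continuous_apply X).continuousOn
  refine ⟨F, hF, le_antisymm (hF.1.le_rate X) ?_⟩
  refine le_of_forall_lt_imp_le_of_dense fun x hx => ?_
  rcases le_or_gt x 0 with h0 | h0
  · exact h0.trans (hF.1.nonneg X)
  · -- a fraction between
    obtain ⟨c, hc1, hc2⟩ := exists_rat_btwn hx
    have hc0 : (0 : ℝ) < c := h0.trans hc1
    have hc0' : 0 < c := by exact_mod_cast hc0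
    have hnum : 0 < c.num := Rat.num_pos.2 hc0'
    have hcast : (c : ℝ) = (c.num.toNat : ℝ) / (c.den : ℝ) := by
      have h1 : ((c.num.toNat : ℤ) : ℝ) = (c.num : ℝ) := by
        rw [Int.toNat_of_nonneg hnum.le]
      rw [Rat.cast_def, ← h1]
      push_cast
      rfl
    have hden : (0 : ℝ) < (c.den : ℝ) := by exact_mod_cast c.den_pos
    obtain ⟨G, hG, hGX⟩ := exists_strongDim_ge X (m := c.num.toNat) (q := c.den) (by omega)
      c.den_pos (by
        rw [hcast, div_lt_iff₀ hden] at hc2
        linarith)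
    rw [← hcast] at hGX
    have h2 : G X ≤ F X := hmax hG
    linarith

end Pool.Agent.Run7.h162.SD
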