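import Pool.Agent.Run7.h162.SD.Dim

/-!
# Growth rates of the schemes built from given schemes
-/

set_option autoImplicit false
set_option linter.unusedSectionVars false

namespace Pool.Agent.Run7.h162.SD

open scoped TensorProduct Topology
open Pool.Agent.H826R3.SM Pool.Agent.TH671.DU Pool.Agent.N86.SQ

variable {k : Type} [Field k]

/-- the disjoint union of a list of schemes -/
def FSch.unions : List (FSch k) → FSch k
  | [] => FSch.empty k
  | X :: L => X.union (FSch.unions L)

/-- the product of a list of schemes -/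
def FSch.prods : List (FSch k) → FSch k
  | [] => FSch.point k
  | X :: L => X.prod (FSch.prods L)

/-- the value of a polynomial with nonnegative integer coefficients, given as a list of words, at
schemes: the disjoint union over the words of the products of their letters -/
def polySch {m : ℕ} (X : Fin m → FSch k) (P : List (List (Fin m))) : FSch k :=
  FSch.unions (P.map fun w => FSch.prods (w.map X))

/-- the value of the same polynomial at real numbers -/
def polyVal {m : ℕ} (x : Fin m → ℝ) (P : List (List (Fin m))) : ℝ :=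
  (P.map fun w => (w.map x).prod).sum

variable [IsAlgClosed k]

theorem IsDimFun.unions {F : FSch k → ℝ} (h : IsDimFun F) (L : List (FSch k)) :
    F (FSch.unions L) = (L.map F).sum := by
  induction L with
  | nil => exact h.empty
  | cons X L ih => rw [FSch.unions, h.union, ih, List.map_cons, List.sum_cons]

theorem IsDimFun.prods {F : FSch k → ℝ} (h : IsDimFun F) (L : List (FSch k)) :
    F (FSch.prods L) = (L.map F).prod := by
  induction L with
  | nil => exact h.point
  | cons X L ih => rw [FSch.prods, h.prod, ih, List.map_cons, List.prod_cons]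

theorem IsDimFun.poly {F : FSch k → ℝ} (h : IsDimFun F) {m : ℕ} (X : Fin m → FSch k)
    (P : List (List (Fin m))) : F (polySch X P) = polyVal (fun i => F (X i)) P := by
  rw [polySch, h.unions, polyVal, List.map_map]
  congr 1
  refine List.map_congr_left fun w _ => ?_
  rw [Function.comp_apply, h.prods, List.map_map]
  rfl

theorem nontrivial_union_left (X Y : FSch k) [Nontrivial X.A] : Nontrivial (X.union Y).A :=
  (Prod.fst_surjective (α := X.A) (β := Y.A)).nontrivial

theorem nontrivial_prod (X Y : FSch k) [Nontrivial X.A] [Nontrivial Y.A] :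
    Nontrivial (X.prod Y).A := by
  change Nontrivial (X.A ⊗[k] Y.A)
  infer_instance

theorem nontrivial_prods (L : List (FSch k)) (h : ∀ X ∈ L, Nontrivial X.A) :
    Nontrivial (FSch.prods L).A := by
  induction L with
  | nil =>
    change Nontrivial k
    infer_instance
  | cons X L ih =>
    have := h X (List.mem_cons_self)
    have := ih fun Y hY => h Y (List.mem_cons_of_mem _ hY)
    exact nontrivial_prod X (FSch.prods L)

theorem nontrivial_polySch {m : ℕ} (X : Fin m → FSch k) (h : ∀ i, Nontrivial (X i).A)
    (P : List (List (Fin m))) (hP : P ≠ []) : Nontrivial (polySch X P).A := by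
  obtain ⟨w, P', rfl⟩ := List.exists_cons_of_ne_nil hP
  have : Nontrivial (FSch.prods (w.map X)).A := nontrivial_prods _ (by
    intro Y hY
    obtain ⟨i, -, rfl⟩ := List.mem_map.1 hY
    exact h i)
  exact nontrivial_union_left (FSch.prods (w.map X)) _

/-- the values of the dimension functions at given schemes -/
def spectrum {m : ℕ} (X : Fin m → FSch k) : Set (Fin m → ℝ) :=
  {x | ∃ F : FSch k → ℝ, IsDimFun F ∧ ∀ i, x i = F (X i)}

theorem isCompact_spectrum {m : ℕ} (X : Fin m → FSch k) : IsCompact (spectrum X) := by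
  have h1 : spectrum X = (fun (F : FSch k → ℝ) (i : Fin m) => F (X i)) ''
      {F : FSch k → ℝ | IsDimFun F} := by
    ext x
    constructor
    · rintro ⟨F, hF, hx⟩
      exact ⟨F, hF, (funext hx).symm⟩
    · rintro ⟨F, hF, rfl⟩
      exact ⟨F, hF, fun i => rfl⟩
  rw [h1]
  exact (isCompact_dim (k := k)).image (continuous_pi fun i => continuous_apply _)

theorem isGreatest_dim (X : FSch k) [Nontrivial X.A] :
    IsGreatest {x : ℝ | ∃ F : FSch k → ℝ, IsDimFun F ∧ F X = x} (rate k X.A) := by
  obtain ⟨F, hF, hX⟩ := exists_dim_eq_rate X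
  refine ⟨⟨F, hF.1, hX⟩, ?_⟩
  rintro _ ⟨G, hG, rfl⟩
  exact hG.le_rate X

theorem isGreatest_poly {m : ℕ} (X : Fin m → FSch k) (h : ∀ i, Nontrivial (X i).A)
    (P : List (List (Fin m))) (hP : P ≠ []) :
    IsGreatest ((fun x => polyVal x P) '' spectrum X) (rate k (polySch X P).A) := by
  have := nontrivial_polySch X h P hP
  obtain ⟨⟨F, hF, hX⟩, hmax⟩ := isGreatest_dim (polySch X P)
  refine ⟨⟨fun i => F (X i), ⟨F, hF, fun i => rfl⟩, ?_⟩, ?_⟩
  · dsimp only
    rw [← hF.poly, hX]
  · rintro _ ⟨x, ⟨G, hG, hx⟩, rfl⟩
    refine hmax ⟨G, hG, ?_⟩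
    rw [hG.poly, funext hx]

theorem one_le_dim {F : FSch k → ℝ} (h : IsDimFun F) (X : FSch k) [Nontrivial X.A] : 1 ≤ F X := by
  obtain ⟨f, hf⟩ := exists_point (k := k) X.A
  rw [← h.point]
  exact h.mono (FSch.point k) X f hf

/-! ### Additivity and multiplicativity -/

theorem sum_attained {L : List (FSch k)} (hL : ∀ X ∈ L, Nontrivial X.A) (hne : L ≠ [])
    (h : rate k (FSch.unions L).A = (L.map fun X => rate k X.A).sum) :
    ∃ F : FSch k → ℝ, IsDimFun F ∧ ∀ X ∈ L, F X = rate k X.A := by
  have hnt : Nontrivial (FSch.unions L).A := by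
    obtain ⟨Y, L', rfl⟩ := List.exists_cons_of_ne_nil hne
    have := hL Y List.mem_cons_self
    exact nontrivial_union_left Y _
  obtain ⟨⟨F, hF, hX⟩, -⟩ := isGreatest_dim (FSch.unions L)
  refine ⟨F, hF, ?_⟩
  rw [hF.unions, h] at hX
  clear h hnt hne
  induction L with
  | nil => simp
  | cons Y L ih =>
    have hY := hL Y List.mem_cons_self
    have hL' : ∀ X ∈ L, Nontrivial X.A := fun X hX => hL X (List.mem_cons_of_mem _ hX)
    have h1 : F Y ≤ rate k Y.A := hF.le_rate Y
    have h2 : (L.map F).sum ≤ (L.map fun X => rate k X.A).sum :=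
      List.sum_le_sum fun X hX => by
        have := hL' X hX
        exact hF.le_rate X
    rw [List.map_cons, List.sum_cons, List.map_cons, List.sum_cons] at hX
    intro X hX'
    rcases List.mem_cons.1 hX' with rfl | hX'
    · linarith
    · exact ih hL' (by linarith) X hX'

theorem prod_attained {L : List (FSch k)} (hL : ∀ X ∈ L, Nontrivial X.A)
    (h : rate k (FSch.prods L).A = (L.map fun X => rate k X.A).prod) :
    ∃ F : FSch k → ℝ, IsDimFun F ∧ ∀ X ∈ L, F X = rate k X.A := by
  have hnt : Nontrivial (FSch.prods L).A := nontrivial_prods L hL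
  obtain ⟨⟨F, hF, hX⟩, -⟩ := isGreatest_dim (FSch.prods L)
  refine ⟨F, hF, ?_⟩
  rw [hF.prods, h] at hX
  clear h hnt
  induction L with
  | nil => simp
  | cons Y L ih =>
    have hY := hL Y List.mem_cons_self
    have hL' : ∀ X ∈ L, Nontrivial X.A := fun X hX => hL X (List.mem_cons_of_mem _ hX)
    have h1 : F Y ≤ rate k Y.A := hF.le_rate Y
    have h3 : 1 ≤ F Y := one_le_dim hF Y
    have h2 : (L.map F).prod ≤ (L.map fun X => rate k X.A).prod ∧ 1 ≤ (L.map F).prod := by
      clear ih hX hL
      induction L with
      | nil => simp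
      | cons Z L ih =>
        have hZ := hL' Z List.mem_cons_self
        obtain ⟨g1, g2⟩ := ih fun X hX => hL' X (List.mem_cons_of_mem _ hX)
        have g3 := hF.le_rate Z
        have g4 := one_le_dim hF Z
        rw [List.map_cons, List.prod_cons, List.map_cons, List.prod_cons]
        exact ⟨mul_le_mul g3 g1 (by linarith) (by linarith), by nlinarith⟩
    obtain ⟨h4, h5⟩ := h2
    rw [List.map_cons, List.prod_cons, List.map_cons, List.prod_cons] at hX
    have h6 : F Y = rate k Y.A := by
      by_contra hne
      have h7 : F Y < rate k Y.A := lt_of_le_of_ne h1 hne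
      nlinarith
    have h8 : (L.map F).prod = (L.map fun X => rate k X.A).prod := by
      rw [h6] at hX
      have : rate k Y.A ≠ 0 := by linarith
      exact mul_left_cancel₀ this hX
    intro X hX'
    rcases List.mem_cons.1 hX' with rfl | hX'
    · exact h6
    · exact ih hL' h8 X hX'

theorem unions_le {L : List (FSch k)} (hL : ∀ X ∈ L, Nontrivial X.A) (hne : L ≠ []) :
    rate k (FSch.unions L).A ≤ (L.map fun X => rate k X.A).sum := by
  have hnt : Nontrivial (FSch.unions L).A := by
    obtain ⟨Y, L', rfl⟩ := List.exists_cons_of_ne_nil hne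
    have := hL Y List.mem_cons_self
    exact nontrivial_union_left Y _
  obtain ⟨⟨F, hF, hX⟩, -⟩ := isGreatest_dim (FSch.unions L)
  rw [← hX, hF.unions]
  exact List.sum_le_sum fun X hX => by
    have := hL X hX
    exact hF.le_rate X

theorem prods_le {L : List (FSch k)} (hL : ∀ X ∈ L, Nontrivial X.A) :
    rate k (FSch.prods L).A ≤ (L.map fun X => rate k X.A).prod := by
  have hnt : Nontrivial (FSch.prods L).A := nontrivial_prods L hL
  obtain ⟨⟨F, hF, hX⟩, -⟩ := isGreatest_dim (FSch.prods L)
  rw [← hX, hF.prods]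
  clear hX hnt
  induction L with
  | nil => simp
  | cons Y L ih =>
    have hY := hL Y List.mem_cons_self
    have g3 := hF.le_rate Y
    have g4 := one_le_dim hF Y
    have g5 := ih fun X hX => hL X (List.mem_cons_of_mem _ hX)
    have g6 : 0 ≤ (L.map F).prod := List.prod_nonneg fun x hx => by
      obtain ⟨X, hX, rfl⟩ := List.mem_map.1 hx
      exact hF.nonneg X
    rw [List.map_cons, List.prod_cons, List.map_cons, List.prod_cons]
    exact mul_le_mul g3 g5 g6 (by linarith)

/-- **Additive if and only if multiplicative.** -/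
theorem tfae_list {L : List (FSch k)} (hL : ∀ X ∈ L, Nontrivial X.A) (hne : L ≠ []) : List.TFAE [
    rate k (FSch.unions L).A = (L.map fun X => rate k X.A).sum,
    rate k (FSch.prods L).A = (L.map fun X => rate k X.A).prod,
    ∃ F : FSch k → ℝ, IsDimFun F ∧ ∀ X ∈ L, F X = rate k X.A] := by
  have hnt : Nontrivial (FSch.unions L).A := by
    obtain ⟨Y, L', rfl⟩ := List.exists_cons_of_ne_nil hne
    have := hL Y List.mem_cons_self
    exact nontrivial_union_left Y _
  have hnt' : Nontrivial (FSch.prods L).A := nontrivial_prods L hL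
  tfae_have 1 → 3 := sum_attained hL hne
  tfae_have 2 → 3 := prod_attained hL
  tfae_have 3 → 1 := by
    rintro ⟨F, hF, h⟩
    refine le_antisymm (unions_le hL hne) ?_
    have h1 := hF.le_rate (FSch.unions L)
    rw [hF.unions, List.map_congr_left h] at h1
    exact h1
  tfae_have 3 → 2 := by
    rintro ⟨F, hF, h⟩
    refine le_antisymm (prods_le hL) ?_
    have h1 := hF.le_rate (FSch.prods L)
    rw [hF.prods, List.map_congr_left h] at h1
    exact h1
  tfae_finish

end Pool.Agent.Run7.h162.SD
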