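import Pool.Agent.Run7.h162.SD.Poly

/-!
# Asymptotic comparison of two schemes
-/

set_option autoImplicit false
set_option linter.unusedSectionVars false

namespace Pool.Agent.Run7.h162.SD

open scoped TensorProduct Topology
open Pool.Agent.H826R3.SM Pool.Agent.TH671.DU Pool.Agent.N86.SQ
open Pool.Agent.K7.H26.SHI (Base Good)

variable {k : Type} [Field k] [IsAlgClosed k]

theorem exists_nat_div_btwn {x y : ℝ} (hx : 0 ≤ x) (h : x < y) :
    ∃ p q : ℕ, 0 < p ∧ 0 < q ∧ x < (p : ℝ) / q ∧ (p : ℝ) / q < y := by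
  obtain ⟨c, hc1, hc2⟩ := exists_rat_btwn h
  have hc0 : (0 : ℝ) < c := lt_of_le_of_lt hx hc1
  have hc0' : 0 < c := by exact_mod_cast hc0
  have hnum : 0 < c.num := Rat.num_pos.2 hc0'
  have hcast : (c : ℝ) = (c.num.toNat : ℝ) / (c.den : ℝ) := by
    have h1 : ((c.num.toNat : ℤ) : ℝ) = (c.num : ℝ) := by
      rw [Int.toNat_of_nonneg hnum.le]
    rw [Rat.cast_def, ← h1]
    push_cast
    rfl
  exact ⟨c.num.toNat, c.den, by omega, c.den_pos, by rwa [← hcast], by rwa [← hcast]⟩

theorem rel_exists (X Y : FSch k) [Nontrivial Y.A] {p q : ℕ} (hp : 0 < p) (hq : 0 < q) {c : ℝ}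
    (hc : (p : ℝ) / q < c)
    (hno : ∀ N : ℕ, 1 ≤ N → ∃ Z : FSch k,
      c ^ N * (mu ⟨Pow k Y.A N⟩ Z : ℝ) < (mu ⟨Pow k X.A N⟩ Z : ℝ)) :
    ∃ F : FSch k → ℝ, StrongDim F ∧ (p : ℝ) * F Y ≤ q * F X := by
  have hq' : (0 : ℝ) < q := by exact_mod_cast hq
  have hp' : (0 : ℝ) < p := by exact_mod_cast hp
  have hc0 : 0 < c := lt_trans (by positivity) hc
  have h0 : ((p : SC k) * cl Y) ≠ 0 := by
    intro h
    have h1 := congrArg (fun a => muS a (FSch.point k)) h
    beta_reduce at h1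
    rw [muS_natCast_mul, muS_cl, mu_point', muS_zero] at h1
    have h2 : 1 ≤ mdeg k Y.A :=
      le_trans (Nat.succ_le_of_lt (Module.finrank_pos (R := k) (M := Y.A))) (finrank_le_mdeg Y.A)
    rcases Nat.mul_eq_zero.1 h1 with h3 | h3 <;> omega
  obtain ⟨R, hR, hxy, ht⟩ := Pool.Agent.K7.H26.SHI.exists_total (base (k := k))
    ((p : SC k) * cl Y) ((q : SC k) * cl X) h0 (q * c) p hp' (by
      rw [div_lt_iff₀ hq'] at hc
      linarith) (by
      intro j L N hle
      have e1 : (j : SC k) * ((q : SC k) * cl X) ^ N =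
          ((j * q ^ N : ℕ) : SC k) * cl ⟨Pow k X.A N⟩ := by
        rw [← cl_pow]
        push_cast
        ring
      have e2 : (L : SC k) * ((p : SC k) * cl Y) ^ N =
          ((L * p ^ N : ℕ) : SC k) * cl ⟨Pow k Y.A N⟩ := by
        rw [← cl_pow]
        push_cast
        ring
      rw [e1, e2] at hle
      rcases Nat.eq_zero_or_pos N with rfl | hN
      · have h1 := hle (FSch.point k)
        have e3 : mu (⟨Pow k X.A 0⟩ : FSch k) (FSch.point k) = 1 := by
          rw [mu_point']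
          have : mdeg k (Pow k X.A 0) = mdeg k k := mdeg_congr (powZero k X.A)
          exact this.trans mdeg_self
        have e4 : mu (⟨Pow k Y.A 0⟩ : FSch k) (FSch.point k) = 1 := by
          rw [mu_point']
          have : mdeg k (Pow k Y.A 0) = mdeg k k := mdeg_congr (powZero k Y.A)
          exact this.trans mdeg_self
        rw [muS_natCast_mul, muS_natCast_mul, muS_cl, muS_cl, e3, e4, pow_zero, pow_zero] at h1
        have h2 : j ≤ L := by omega
        rw [pow_zero, pow_zero, mul_one, mul_one]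
        exact_mod_cast h2
      · obtain ⟨Z, hZ⟩ := hno N hN
        have h1 := hle Z
        rw [muS_natCast_mul, muS_natCast_mul, muS_cl, muS_cl] at h1
        have h2 : ((j : ℝ) * (q : ℝ) ^ N) * (mu ⟨Pow k X.A N⟩ Z : ℝ) ≤
            ((L : ℝ) * (p : ℝ) ^ N) * (mu ⟨Pow k Y.A N⟩ Z : ℝ) := by exact_mod_cast h1
        have h3 : (0 : ℝ) ≤ (mu ⟨Pow k Y.A N⟩ Z : ℝ) := Nat.cast_nonneg _
        have hj : (0 : ℝ) ≤ (j : ℝ) * (q : ℝ) ^ N := by positivity
        rw [mul_pow]
        rcases h3.eq_or_lt with h4 | h4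
        · rw [← h4, mul_zero] at hZ
          rw [← h4, mul_zero] at h2
          have h5 : (j : ℝ) * (q : ℝ) ^ N = 0 := by
            by_contra hne
            have h6 : 0 < (j : ℝ) * (q : ℝ) ^ N := lt_of_le_of_ne hj (Ne.symm hne)
            nlinarith
          rw [← mul_assoc, h5, zero_mul]
          positivity
        · have h5 : ((j : ℝ) * (q : ℝ) ^ N) * (c ^ N * (mu ⟨Pow k Y.A N⟩ Z : ℝ)) ≤
              ((L : ℝ) * (p : ℝ) ^ N) * (mu ⟨Pow k Y.A N⟩ Z : ℝ) :=
            (mul_le_mul_of_nonneg_left hZ.le hj).trans h2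
          rw [← mul_assoc] at h5
          have h6 := le_of_mul_le_mul_right h5 h4
          rw [← mul_assoc]
          exact h6)
  refine ⟨_, strongDim_val hR ht, ?_⟩
  have h1 := Pool.Agent.K7.H26.SHI.val_mono base hR ht hxy
  rw [Pool.Agent.K7.H26.SHI.val_mul base hR ht, Pool.Agent.K7.H26.SHI.val_mul base hR ht] at h1
  have hnat : ∀ n : ℕ, Pool.Agent.K7.H26.SHI.val R (n : SC k) = n := by
    intro n
    induction n with
    | zero =>
      have h2 := Pool.Agent.K7.H26.SHI.val_add base hR ht (0 : SC k) 0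
      rw [add_zero] at h2
      rw [Nat.cast_zero, Nat.cast_zero]
      linarith
    | succ n ih =>
      rw [Nat.cast_succ, Pool.Agent.K7.H26.SHI.val_add base hR ht, ih,
        Pool.Agent.K7.H26.SHI.val_one base hR, Nat.cast_succ]
  rw [hnat, hnat] at h1
  exact h1

theorem mu_replicate (b : ℕ) (X Z : FSch k) :
    mu (FSch.unions (List.replicate b X)) Z = b * mu X Z := by
  induction b with
  | zero =>
    rw [Nat.zero_mul]
    exact mu_empty Z
  | succ b ih =>
    rw [List.replicate_succ, FSch.unions, mu_union, ih]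
    ring

theorem StrongDim.le_of_mu {F : FSch k → ℝ} (h : StrongDim F) {X Y : FSch k} {t : ℝ}
    (ht : 0 ≤ t) (hXY : ∀ Z : FSch k, (mu X Z : ℝ) ≤ t * (mu Y Z : ℝ)) : F X ≤ t * F Y := by
  have h0 := h.1.nonneg Y
  have key : ∀ s : ℝ, t < s → F X ≤ s * F Y := by
    intro s hs
    obtain ⟨a, b, ha, hb, hab, hab'⟩ := exists_nat_div_btwn ht hs
    have hb' : (0 : ℝ) < b := by exact_mod_cast hb
    have h1 : Dom (FSch.unions (List.replicate b X)) (FSch.unions (List.replicate a Y)) := by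
      intro Z
      rw [mu_replicate, mu_replicate]
      have h2 : (b : ℝ) * (mu X Z : ℝ) ≤ (a : ℝ) * (mu Y Z : ℝ) := by
        have h3 := hXY Z
        have h4 : t * (mu Y Z : ℝ) ≤ (a / b : ℝ) * (mu Y Z : ℝ) :=
          mul_le_mul_of_nonneg_right hab.le (Nat.cast_nonneg _)
        have h5 := mul_le_mul_of_nonneg_left (h3.trans h4) hb'.le
        calc (b : ℝ) * (mu X Z : ℝ) ≤ b * ((a / b : ℝ) * (mu Y Z : ℝ)) := h5
          _ = (a : ℝ) * (mu Y Z : ℝ) := by field_simp
      exact_mod_cast h2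
    have h2 := h.2 _ _ h1
    rw [h.1.unions, h.1.unions, List.map_replicate, List.map_replicate, List.sum_replicate,
      List.sum_replicate, nsmul_eq_mul, nsmul_eq_mul] at h2
    have h3 : F X ≤ (a / b : ℝ) * F Y := by
      rw [div_mul_eq_mul_div, le_div_iff₀ hb']
      linarith
    exact h3.trans (mul_le_mul_of_nonneg_right hab'.le h0)
  rcases h0.eq_or_lt with h1 | h1
  · have := key (t + 1) (by linarith)
    rw [← h1, mul_zero] at this
    rw [← h1, mul_zero]
    exact this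
  · refine le_of_forall_pos_le_add fun e he => ?_
    have := key (t + e / F Y) (by
      have : 0 < e / F Y := by positivity
      linarith)
    rw [add_mul, div_mul_cancel₀ e h1.ne'] at this
    exact this

/-- **Relative duality.** -/
theorem rel_iff (X Y : FSch k) [Nontrivial Y.A] {c : ℝ} (hc : 0 ≤ c) :
    (∀ F : FSch k → ℝ, StrongDim F → F X ≤ c * F Y) ↔
      ∀ η : ℝ, 0 < η → ∃ N : ℕ, 1 ≤ N ∧ ∀ Z : FSch k,
        (mu ⟨Pow k X.A N⟩ Z : ℝ) ≤ (c + η) ^ N * (mu ⟨Pow k Y.A N⟩ Z : ℝ) := by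
  constructor
  · intro h η hη
    by_contra hcon
    push Not at hcon
    obtain ⟨p, q, hp, hq, h1, h2⟩ := exists_nat_div_btwn hc (show c < c + η by linarith)
    obtain ⟨F, hF, hpq⟩ := rel_exists X Y hp hq h2 hcon
    have h3 := h F hF
    have h4 := one_le_dim hF.1 Y
    have hq' : (0 : ℝ) < q := by exact_mod_cast hq
    rw [lt_div_iff₀ hq'] at h1
    have h5 : (p : ℝ) * F Y ≤ q * (c * F Y) := hpq.trans (mul_le_mul_of_nonneg_left h3 hq'.le)
    have h6 : c * q * F Y < p * F Y := mul_lt_mul_of_pos_right h1 (by linarith)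
    nlinarith
  · intro h F hF
    have h0 := hF.1.nonneg Y
    refine le_of_forall_pos_le_add fun e he => ?_
    have hY1 := one_le_dim hF.1 Y
    have hd : 0 < e / F Y := by positivity
    obtain ⟨N, hN, hZ⟩ := h (e / F Y) hd
    have h1 := hF.le_of_mu (by positivity) hZ
    rw [hF.1.pow, hF.1.pow, ← mul_pow] at h1
    have h2 := (pow_le_pow_iff_left₀ (hF.1.nonneg X) (by positivity) (by omega)).1 h1
    rw [add_mul, div_mul_cancel₀ e (by linarith)] at h2
    exact h2

end Pool.Agent.Run7.h162.SD
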