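import Pool.Agent.K7.H26.SHI.Eta
import Pool.Agent.N86.SQ.Clo2

/-!
# The semiring of finite schemes and the dominance preorder
-/

set_option autoImplicit false
set_option linter.unusedSectionVars false

namespace Pool.Agent.Run7.h162.SD

open scoped TensorProduct Topology
open Pool.Agent.H826R3.SM Pool.Agent.TH671.DU Pool.Agent.N86.SQ
open Pool.Agent.K7.H26.SHI (Base Good)

/-- finite schemes over `k`, given by their coordinate rings -/
structure FSch (k : Type) [Field k] : Type 1 where
  /-- the coordinate ring -/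
  A : Type
  /-- its ring structure -/
  [ring : CommRing A]
  /-- its algebra structure -/
  [alg : Algebra k A]
  /-- it is finite-dimensional -/
  [fin : Module.Finite k A]

attribute [instance] FSch.ring FSch.alg FSch.fin

variable {k : Type} [Field k]

/-- the disjoint union -/
def FSch.union (X Y : FSch k) : FSch k := ⟨X.A × Y.A⟩

/-- the product -/
def FSch.prod (X Y : FSch k) : FSch k := ⟨X.A ⊗[k] Y.A⟩

/-- a point -/
def FSch.point (k : Type) [Field k] : FSch k := ⟨k⟩

/-- the empty scheme -/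
def FSch.empty (k : Type) [Field k] : FSch k := ⟨PUnit⟩

/-- the least degree of a smoothable scheme which contains `X × Y` -/
noncomputable def mu (X Y : FSch k) : ℕ := mdeg k (X.A ⊗[k] Y.A)

variable [IsAlgClosed k]

theorem mdeg_tensor_le (A B : Type) [CommRing A] [Algebra k A] [Module.Finite k A] [CommRing B]
    [Algebra k B] [Module.Finite k B] : mdeg k (A ⊗[k] B) ≤ mdeg k A * mdeg k B := by
  obtain ⟨D, hD⟩ := exists_fam (k := k) A
  obtain ⟨E, hE⟩ := exists_fam (k := k) B
  refine TH671.DU.mdeg_le (Fam.join (mdeg_spec hD) (mdeg_spec hE)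
    Algebra.TensorProduct.includeLeft Algebra.TensorProduct.includeRight ?_)
  rw [eq_top_iff]
  rintro x -
  induction x using TensorProduct.induction_on with
  | zero => exact Subalgebra.zero_mem _
  | tmul x y =>
    have h1 : (x ⊗ₜ[k] y : A ⊗[k] B) = (x ⊗ₜ 1) * (1 ⊗ₜ y) := by
      rw [Algebra.TensorProduct.tmul_mul_tmul, mul_one, one_mul]
    rw [h1]
    refine Subalgebra.mul_mem _ ?_ ?_
    · exact (le_sup_left : (Algebra.TensorProduct.includeLeft (R := k) (S := k) (A := A)
        (B := B)).range ≤ _) ⟨x, rfl⟩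
    · exact (le_sup_right : (Algebra.TensorProduct.includeRight (R := k) (A := A)
        (B := B)).range ≤ _) ⟨y, rfl⟩
  | add x y hx hy => exact Subalgebra.add_mem _ hx hy

theorem mdeg_of_subsingleton (A : Type) [CommRing A] [Algebra k A] [Module.Finite k A]
    [Subsingleton A] : mdeg k A = 0 := by
  have e : A ≃ₐ[k] (Fin 0 → k) := AlgEquiv.ofBijective
    (AlgHom.pi fun i : Fin 0 => i.elim0) ⟨fun x y _ => Subsingleton.elim x y,
      fun f => ⟨0, funext fun i => i.elim0⟩⟩
  rw [mdeg_congr e, mdeg_pi k 0, zero_mul]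

theorem mdeg_self : mdeg k k = 1 := by
  have h1 := mdeg_pi (k := k) k 1
  have e : (Fin 1 → k) ≃ₐ[k] k := AlgEquiv.funUnique k (Fin 1) k
  have h2 : Fam k k 1 := fam_self
  have h3 := TH671.DU.mdeg_le h2
  have h4 := finrank_le_mdeg (k := k) k
  rw [Module.finrank_self] at h4
  omega

theorem mu_union (X Y Z : FSch k) : mu (X.union Y) Z = mu X Z + mu Y Z :=
  mdeg_prod_tensor X.A Y.A Z.A

theorem mu_prod (X Y Z : FSch k) : mu (X.prod Y) Z = mu X (Y.prod Z) :=
  mdeg_congr (Algebra.TensorProduct.assoc k k k X.A Y.A Z.A)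

theorem mu_comm (X Y : FSch k) : mu X Y = mu Y X :=
  mdeg_congr (Algebra.TensorProduct.comm k X.A Y.A)

theorem mu_point (X : FSch k) : mu (FSch.point k) X = mdeg k X.A :=
  mdeg_congr (Algebra.TensorProduct.lid k X.A)

theorem mu_point' (X : FSch k) : mu X (FSch.point k) = mdeg k X.A := by
  rw [mu_comm, mu_point]

theorem mu_empty (X : FSch k) : mu (FSch.empty k) X = 0 := by
  have h1 : Subsingleton (PUnit ⊗[k] X.A) := by infer_instance
  exact mdeg_of_subsingleton (k := k) (PUnit ⊗[k] X.A)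

theorem mu_congr {X Y : FSch k} (e : X.A ≃ₐ[k] Y.A) (Z : FSch k) : mu X Z = mu Y Z :=
  mdeg_congr (Algebra.TensorProduct.congr e AlgEquiv.refl)

/-- the dominance preorder -/
def Dom (X Y : FSch k) : Prop := ∀ Z : FSch k, mu X Z ≤ mu Y Z

instance fschSetoid : Setoid (FSch k) where
  r X Y := ∀ Z : FSch k, mu X Z = mu Y Z
  iseqv := ⟨fun _ _ => rfl, fun h Z => (h Z).symm, fun h1 h2 Z => (h1 Z).trans (h2 Z)⟩

/-- finite schemes up to equivalence -/
def SC (k : Type) [Field k] [IsAlgClosed k] : Type 1 := Quotient (fschSetoid (k := k))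

/-- the class of a scheme -/
def cl (X : FSch k) : SC k := Quotient.mk _ X

theorem cl_eq {X Y : FSch k} (h : ∀ Z : FSch k, mu X Z = mu Y Z) : cl X = cl Y := Quotient.sound h

theorem cl_congr {X Y : FSch k} (e : X.A ≃ₐ[k] Y.A) : cl X = cl Y := cl_eq (mu_congr e)

/-- the invariants of a class -/
noncomputable def muS (a : SC k) (Z : FSch k) : ℕ :=
  Quotient.lift (fun X : FSch k => mu X Z)
    (fun X Y (h : ∀ Z : FSch k, mu X Z = mu Y Z) => h Z) a

theorem muS_cl (X Z : FSch k) : muS (cl X) Z = mu X Z := rfl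

theorem sc_ext {a b : SC k} (h : ∀ Z, muS a Z = muS b Z) : a = b := by
  induction a using Quotient.ind with
  | _ X =>
    induction b using Quotient.ind with
    | _ Y => exact cl_eq h

theorem exists_cl (a : SC k) : ∃ X, cl X = a := Quotient.exists_rep a

theorem mu_union_congr {X X' Y Y' : FSch k} (h : ∀ Z, mu X Z = mu X' Z)
    (h' : ∀ Z, mu Y Z = mu Y' Z) (Z : FSch k) : mu (X.union Y) Z = mu (X'.union Y') Z := by
  rw [mu_union, mu_union, h, h']

theorem mu_prod_congr {X X' Y Y' : FSch k} (h : ∀ Z, mu X Z = mu X' Z)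
    (h' : ∀ Z, mu Y Z = mu Y' Z) (Z : FSch k) : mu (X.prod Y) Z = mu (X'.prod Y') Z := by
  have h1 : ∀ (X Y : FSch k), mu (X.prod Y) Z = mu Y (X.prod Z) := fun X Y => by
    rw [mu_congr (X := X.prod Y) (Y := Y.prod X) (Algebra.TensorProduct.comm k X.A Y.A), mu_prod]
  rw [mu_prod, h, ← mu_prod, h1, h', ← h1]

noncomputable instance : Add (SC k) :=
  ⟨Quotient.map₂ FSch.union fun _ _ h _ _ h' => mu_union_congr h h'⟩

noncomputable instance : Mul (SC k) :=
  ⟨Quotient.map₂ FSch.prod fun _ _ h _ _ h' => mu_prod_congr h h'⟩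

noncomputable instance : Zero (SC k) := ⟨cl (FSch.empty k)⟩

noncomputable instance : One (SC k) := ⟨cl (FSch.point k)⟩

theorem cl_add (X Y : FSch k) : cl X + cl Y = cl (X.union Y) := rfl

theorem cl_mul (X Y : FSch k) : cl X * cl Y = cl (X.prod Y) := rfl

theorem muS_add (a b : SC k) (Z : FSch k) : muS (a + b) Z = muS a Z + muS b Z := by
  obtain ⟨X, rfl⟩ := exists_cl a
  obtain ⟨Y, rfl⟩ := exists_cl b
  exact mu_union X Y Z

theorem muS_zero (Z : FSch k) : muS (0 : SC k) Z = 0 := mu_empty Z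

theorem muS_one (Z : FSch k) : muS (1 : SC k) Z = mdeg k Z.A := mu_point Z

theorem muS_mul (a : SC k) (Y Z : FSch k) : muS (a * cl Y) Z = muS a (Y.prod Z) := by
  obtain ⟨X, rfl⟩ := exists_cl a
  exact mu_prod X Y Z

theorem sc_mul_comm (a b : SC k) : a * b = b * a := by
  obtain ⟨X, rfl⟩ := exists_cl a
  obtain ⟨Y, rfl⟩ := exists_cl b
  exact cl_congr (Algebra.TensorProduct.comm k X.A Y.A)

theorem sc_one_mul (a : SC k) : 1 * a = a := by
  obtain ⟨X, rfl⟩ := exists_cl a
  exact cl_congr (Algebra.TensorProduct.lid k X.A)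

theorem sc_zero_mul (a : SC k) : 0 * a = 0 := by
  obtain ⟨X, rfl⟩ := exists_cl a
  refine sc_ext fun Z => ?_
  rw [muS_mul, muS_zero, muS_zero]

theorem sc_right_distrib (a b c : SC k) : (a + b) * c = a * c + b * c := by
  obtain ⟨X, rfl⟩ := exists_cl c
  refine sc_ext fun Z => ?_
  rw [muS_mul, muS_add, muS_add, muS_mul, muS_mul]

noncomputable instance : CommSemiring (SC k) where
  add_assoc a b c := sc_ext fun Z => by simp only [muS_add, Nat.add_assoc]
  zero_add a := sc_ext fun Z => by rw [muS_add, muS_zero, Nat.zero_add]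
  add_zero a := sc_ext fun Z => by rw [muS_add, muS_zero, Nat.add_zero]
  add_comm a b := sc_ext fun Z => by rw [muS_add, muS_add, Nat.add_comm]
  nsmul := nsmulRec
  mul_assoc a b c := by
    obtain ⟨X, rfl⟩ := exists_cl a
    obtain ⟨Y, rfl⟩ := exists_cl b
    obtain ⟨Z, rfl⟩ := exists_cl c
    exact cl_congr (Algebra.TensorProduct.assoc k k k X.A Y.A Z.A)
  one_mul := sc_one_mul
  mul_one a := by rw [sc_mul_comm, sc_one_mul]
  zero_mul := sc_zero_mul
  mul_zero a := by rw [sc_mul_comm, sc_zero_mul]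
  left_distrib a b c := by
    rw [sc_mul_comm, sc_right_distrib, sc_mul_comm b, sc_mul_comm c]
  right_distrib := sc_right_distrib
  mul_comm := sc_mul_comm

theorem muS_natCast (n : ℕ) (Z : FSch k) : muS (n : SC k) Z = n * mdeg k Z.A := by
  induction n with
  | zero => rw [Nat.cast_zero, muS_zero, Nat.zero_mul]
  | succ n ih => rw [Nat.cast_succ, muS_add, muS_one, ih, Nat.succ_mul]

theorem muS_natCast_mul (n : ℕ) (a : SC k) (Z : FSch k) : muS ((n : SC k) * a) Z = n * muS a Z := by
  induction n with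
  | zero => rw [Nat.cast_zero, zero_mul, muS_zero, Nat.zero_mul]
  | succ n ih => rw [Nat.cast_succ, add_mul, one_mul, muS_add, ih, Nat.succ_mul]

/-- the dominance preorder on classes -/
def leS (a b : SC k) : Prop := ∀ Z, muS a Z ≤ muS b Z

theorem cl_pow (X : FSch k) (n : ℕ) : cl X ^ n = cl ⟨Pow k X.A n⟩ := by
  induction n with
  | zero =>
    rw [pow_zero]
    exact cl_congr (powZero k X.A).symm
  | succ n ih =>
    rw [pow_succ, ih, mul_comm]
    exact cl_congr (powSucc k X.A n).symm

theorem leS_natCast_of_mdeg_le (X : FSch k) {n : ℕ} (h : mdeg k X.A ≤ n) : leS (cl X) (n : SC k) := by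
  intro Z
  rw [muS_natCast]
  exact (mdeg_tensor_le (k := k) X.A Z.A).trans (Nat.mul_le_mul_right _ h)

theorem leS_of_subquotient {X Y : FSch k} (h : IsSubquotient k X.A Y.A) : leS (cl X) (cl Y) := by
  intro Z
  obtain ⟨S, f, hf⟩ := h
  refine IsSubquotient.mdeg_le ?_
  refine IsSubquotient.mk' (Algebra.TensorProduct.map S.val (AlgHom.id k Z.A)) ?_
    (Algebra.TensorProduct.map f (AlgHom.id k Z.A)) ?_
  · exact Module.Flat.rTensor_preserves_injective_linearMap (M := Z.A) S.val.toLinearMap
      Subtype.val_injective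
  · exact TensorProduct.map_surjective hf Function.surjective_id

theorem exists_point (A : Type) [CommRing A] [Algebra k A] [Module.Finite k A] [Nontrivial A] :
    ∃ f : A →ₐ[k] k, Function.Surjective f := by
  obtain ⟨M, hM⟩ := Ideal.exists_maximal A
  have hbij : Function.Bijective (algebraMap k (A ⧸ M)) :=
    IsAlgClosed.algebraMap_bijective_of_isIntegral
  let ee : k ≃ₐ[k] (A ⧸ M) := AlgEquiv.ofBijective (Algebra.ofId k (A ⧸ M)) hbij
  exact ⟨ee.symm.toAlgHom.comp (Ideal.Quotient.mkₐ k M),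
    ee.symm.surjective.comp (Ideal.Quotient.mkₐ_surjective k M)⟩

/-- the dominance preorder satisfies the assumptions of Strassen's theory -/
theorem base : Base (leS (k := k)) where
  refl a Z := le_rfl
  trans a b c h1 h2 Z := (h1 Z).trans (h2 Z)
  add a b c h Z := by
    rw [muS_add, muS_add]
    exact Nat.add_le_add_right (h Z) _
  mul a b c h := by
    obtain ⟨X, rfl⟩ := exists_cl c
    intro Z
    rw [muS_mul, muS_mul]
    exact h _
  zero a Z := by
    rw [muS_zero]
    exact Nat.zero_le _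
  arch a := by
    obtain ⟨X, rfl⟩ := exists_cl a
    exact ⟨mdeg k X.A, leS_natCast_of_mdeg_le X le_rfl⟩
  one a := by
    obtain ⟨X, rfl⟩ := exists_cl a
    rcases subsingleton_or_nontrivial X.A with h | h
    · left
      refine sc_ext fun Z => ?_
      have h1 : Subsingleton (X.A ⊗[k] Z.A) := by infer_instance
      rw [muS_zero]
      exact mdeg_of_subsingleton (k := k) (X.A ⊗[k] Z.A)
    · right
      obtain ⟨f, hf⟩ := exists_point (k := k) X.A
      exact leS_of_subquotient (X := FSch.point k) (Y := X) (IsSubquotient.of_surjective f hf)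
  nat n m h := by
    have h1 := h (FSch.point k)
    rw [muS_natCast, muS_natCast] at h1
    have h2 : mdeg k (FSch.point k).A = 1 := mdeg_self (k := k)
    rwa [h2, Nat.mul_one, Nat.mul_one] at h1

end Pool.Agent.Run7.h162.SD
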